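import Pool.Agent.P.MP_9167e9_an.Fin.Part
import Pool.Agent.P.MP_9167e9_an.Det.Main

open scoped ENNReal

namespace Pool.Agent.Old.MP_9167e9_an.NotSurjective

open Pool.Agent.P.MP_9167e9_an

/-- For some discrete group `G` and some `2 ≤ p < ∞` the canonical map
`K_0(B^{p,*}_r(G)) → K_0(B^p_r(G))` is not surjective. -/
theorem result : ∃ (G : Type) (_ : Group G) (p : ℝ≥0∞) (_ : Fact (1 ≤ p)), 2 ≤ p ∧ p ≠ ∞ ∧
    ¬ Function.Surjective (K0.map (canon G p)) :=
  part pDet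

end Pool.Agent.Old.MP_9167e9_an.NotSurjective
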